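import Pool.Agent.NW.Defs
import Pool.Agent.NW.BijConc

/-! # One bite of the bijection nibble -/

set_option autoImplicit false

open Finset

namespace NW

variable {V : Type} [Fintype V] [DecidableEq V]

/-- number of `z` with `{x, y, z} ∈ H` -/
def cod (H : Finset (Finset V)) (x y : V) : ℕ :=
  (univ.filter fun z => ({x, y, z} : Finset V) ∈ H).card

/-- the bite belonging to a bijection -/
def biteM {n : ℕ} (H : Finset (Finset V)) (φ : V ≃ ZMod n) : Finset (Finset V) :=
  H.filter fun t => ∑ v ∈ t, φ v = 0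

theorem distinct_of_card {x y z : V} (h : ({x, y, z} : Finset V).card = 3) :
    x ≠ y ∧ x ≠ z ∧ y ≠ z := by
  refine ⟨?_, ?_, ?_⟩
  · rintro rfl
    have : ({x, x, z} : Finset V).card ≤ 2 := by
      rw [insert_eq_of_mem (mem_insert_self _ _)]; exact card_le_two
    omega
  · rintro rfl
    have : ({x, y, x} : Finset V).card ≤ 2 := by
      rw [insert_eq_of_mem (by simp)]; exact card_le_two
    omega
  · rintro rfl
    have : ({x, y, y} : Finset V).card ≤ 2 := by
      rw [pair_eq_singleton]; exact card_le_two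
    omega

theorem sum_triple {n : ℕ} (φ : V ≃ ZMod n) {x y z : V} (h : ({x, y, z} : Finset V).card = 3) :
    ∑ v ∈ ({x, y, z} : Finset V), φ v = φ x + (φ y + φ z) := by
  obtain ⟨h1, h2, h3⟩ := distinct_of_card h
  rw [sum_insert (by simp [h1, h2]), sum_insert (by simp [h3]), sum_singleton]

/-- a triple of card 3 containing two distinct elements -/
theorem exists_third {t : Finset V} (ht : t.card = 3) {x z : V} (hx : x ∈ t) (hz : z ∈ t)
    (hxz : x ≠ z) : ∃ u, t = {x, z, u} := by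
  have h1 : ((t.erase x).erase z).card = 1 := by
    rw [card_erase_of_mem (mem_erase.2 ⟨hxz.symm, hz⟩), card_erase_of_mem hx, ht]
  obtain ⟨u, hu⟩ := card_eq_one.1 h1
  refine ⟨u, ?_⟩
  have h2 : insert z ((t.erase x).erase z) = t.erase x := insert_erase (mem_erase.2 ⟨hxz.symm, hz⟩)
  have h3 : insert x (t.erase x) = t := insert_erase hx
  rw [← h3, ← h2, hu]

/-- an edge is covered by the bite iff its unique candidate triangle is in `H` -/
theorem covered_iff {n : ℕ} {H : Finset (Finset V)} (hH : ∀ t ∈ H, t.card = 3) (φ : V ≃ ZMod n)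
    {x z : V} (hxz : x ≠ z) :
    s(x, z) ∈ (biteM H φ).biUnion edg ↔ ({x, z, φ.symm (-φ x - φ z)} : Finset V) ∈ H := by
  rw [mem_biUnion]
  constructor
  · rintro ⟨t, ht, he⟩
    rw [biteM, mem_filter] at ht
    rw [mk_mem_edg] at he
    obtain ⟨u, rfl⟩ := exists_third (hH t ht.1) he.1 he.2.1 hxz
    have h1 := ht.2
    rw [sum_triple φ (hH _ ht.1)] at h1
    have h2 : φ u = -φ x - φ z := by
      have : φ u = (φ x + (φ z + φ u)) - φ x - φ z := by abel
      rw [this, h1]; abel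
    rw [← h2, Equiv.symm_apply_apply]
    exact ht.1
  · intro h
    refine ⟨({x, z, φ.symm (-φ x - φ z)} : Finset V), ?_, mk_mem_edg.2 ⟨by simp, by simp, hxz⟩⟩
    rw [biteM, mem_filter]
    refine ⟨h, ?_⟩
    rw [sum_triple φ (hH _ h), Equiv.apply_symm_apply]
    abel

theorem biteM_disj {n : ℕ} {H : Finset (Finset V)} (hH : ∀ t ∈ H, t.card = 3) (φ : V ≃ ZMod n) :
    ∀ t ∈ biteM H φ, ∀ t' ∈ biteM H φ, t ≠ t' → Disjoint (edg t) (edg t') := by
  intro t ht t' ht' hne
  rw [Finset.disjoint_left]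
  intro e he he'
  induction e using Sym2.ind with
  | _ x z =>
    rw [mk_mem_edg] at he he'
    rw [biteM, mem_filter] at ht ht'
    obtain ⟨u, rfl⟩ := exists_third (hH t ht.1) he.1 he.2.1 he.2.2
    obtain ⟨u', rfl⟩ := exists_third (hH t' ht'.1) he'.1 he'.2.1 he.2.2
    have h1 := ht.2
    have h2 := ht'.2
    rw [sum_triple φ (hH _ ht.1)] at h1
    rw [sum_triple φ (hH _ ht'.1)] at h2
    have h3 : φ u = φ u' := by
      have := h1.trans h2.symm
      simpa using this
    exact hne (by rw [φ.injective h3])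

open Classical in
theorem deg_eq_unc {n : ℕ} {E : Finset (Sym2 V)} (hE : NL E) {H : Finset (Finset V)}
    (hH : ∀ t ∈ H, t.card = 3) (φ : V ≃ ZMod n) (x y : V) (A B : V → V → Prop)
    (hA : ∀ z u, A z u ↔ ({x, z, u} : Finset V) ∈ H) (hB : ∀ z u, ¬ B z u) :
    deg (E \ (biteM H φ).biUnion edg) x = NWT.unc φ x y (nbr E x) A B := by
  unfold deg NWT.unc
  congr 1
  ext z
  rw [mem_nbr, mem_sdiff, mem_filter, mem_nbr, hA]
  constructor
  · rintro ⟨h1, h2⟩
    have hxz : x ≠ z := fun h => hE _ h1 (by rw [h]; exact Sym2.mk_isDiag_iff.2 rfl)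
    rw [covered_iff hH φ hxz] at h2
    exact ⟨h1, h2, hB _ _⟩
  · rintro ⟨h1, h2, -⟩
    have hxz : x ≠ z := fun h => hE _ h1 (by rw [h]; exact Sym2.mk_isDiag_iff.2 rfl)
    refine ⟨h1, ?_⟩
    rw [covered_iff hH φ hxz]
    exact h2

open Classical in
theorem cod_eq_unc {n : ℕ} {E : Finset (Sym2 V)} {H : Finset (Finset V)}
    (hH : ∀ t ∈ H, t.card = 3 ∧ edg t ⊆ E) (φ : V ≃ ZMod n) {x y : V}
    (hx : s(x, y) ∈ E \ (biteM H φ).biUnion edg) (Z : Finset V)
    (hZ : ∀ z, z ∈ Z ↔ ({x, y, z} : Finset V) ∈ H) (A B : V → V → Prop)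
    (hA : ∀ z u, A z u ↔ ({x, z, u} : Finset V) ∈ H)
    (hB : ∀ z u, B z u ↔ ({y, z, u} : Finset V) ∈ H) :
    cod (H.filter fun t => edg t ⊆ E \ (biteM H φ).biUnion edg) x y =
      NWT.unc φ x y Z A B := by
  unfold cod NWT.unc
  have hH' : ∀ t ∈ H, t.card = 3 := fun t ht => (hH t ht).1
  congr 1
  ext z
  rw [mem_filter, mem_filter, mem_filter, hZ, hA, hB]
  simp only [mem_univ, true_and]
  refine and_congr_right fun h => ?_
  obtain ⟨h1, h2, h3⟩ := distinct_of_card (hH' _ h)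
  rw [← covered_iff hH' φ h2, ← covered_iff hH' φ h3]
  have hEt := (hH _ h).2
  constructor
  · intro hs
    exact ⟨(mem_sdiff.1 (hs (mk_mem_edg.2 ⟨by simp, by simp, h2⟩))).2,
      (mem_sdiff.1 (hs (mk_mem_edg.2 ⟨by simp, by simp, h3⟩))).2⟩
  · rintro ⟨g1, g2⟩ e he
    rw [mem_sdiff]
    refine ⟨hEt he, ?_⟩
    rw [edg_triple h1 h3 h2, mem_tri] at he
    rcases he with rfl | rfl | rfl
    · exact (mem_sdiff.1 hx).2
    · exact g2
    · exact g1

/-- **One bite.** -/
theorem bite (ν : ℝ) (hν : 0 < ν) : ∃ n0 : ℕ, ∀ (V : Type) [Fintype V] [DecidableEq V],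
    n0 ≤ Fintype.card V → ∀ (E : Finset (Sym2 V)) (H : Finset (Finset V)), NL E →
    (∀ t ∈ H, t.card = 3 ∧ edg t ⊆ E) →
    ∃ M : Finset (Finset V), M ⊆ H ∧ (∀ t ∈ M, ∀ t' ∈ M, t ≠ t' → Disjoint (edg t) (edg t')) ∧
      (∀ x, |(deg (E \ M.biUnion edg) x : ℝ) -
        ∑ z ∈ nbr E x, (1 - (cod H x z : ℝ) / Fintype.card V)| ≤ ν * Fintype.card V) ∧
      (∀ x y, s(x, y) ∈ E \ M.biUnion edg →
        |(cod (H.filter fun t => edg t ⊆ E \ M.biUnion edg) x y : ℝ) -
          ∑ z ∈ univ.filter (fun z => ({x, y, z} : Finset V) ∈ H),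
            (1 - (cod H x z : ℝ) / Fintype.card V) * (1 - (cod H y z : ℝ) / Fintype.card V)| ≤
          ν * Fintype.card V) := by
  classical
  -- the numerical condition
  have hlim : Filter.Tendsto (fun x : ℝ => x ^ 2 * Real.exp (-(x * (ν ^ 2 / 288))))
      Filter.atTop (nhds 0) := by
    have h1 := (Real.tendsto_pow_mul_exp_neg_atTop_nhds_zero 2).comp
      (Filter.tendsto_id.atTop_mul_const (show (0 : ℝ) < ν ^ 2 / 288 by positivity))
    have h2 := h1.const_mul ((ν ^ 2 / 288) ^ 2)⁻¹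
    rw [mul_zero] at h2
    refine h2.congr fun x => ?_
    simp only [Function.comp, id]
    have : (ν ^ 2 / 288) ≠ 0 := by positivity
    field_simp
  have hev := (hlim.eventually (gt_mem_nhds (show (0 : ℝ) < 1 / 8 by norm_num)))
  obtain ⟨N1, hN1⟩ := Filter.eventually_atTop.1 hev
  refine ⟨max (max ⌈N1⌉₊ ⌈38 / ν⌉₊) 2, ?_⟩
  intro V _ _ hn E H hE hH
  have hH' : ∀ t ∈ H, t.card = 3 := fun t ht => (hH t ht).1
  set n := Fintype.card V with hnV
  have hn2 : 2 ≤ n := (le_max_right _ _).trans hn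
  have hnN1 : N1 ≤ n := (Nat.le_ceil N1).trans (by
    exact_mod_cast ((le_max_left _ _).trans (le_max_left _ _)).trans hn)
  have hnN2 : 38 / ν ≤ n := (Nat.le_ceil _).trans (by
    exact_mod_cast ((le_max_right _ _).trans (le_max_left _ _)).trans hn)
  have hn0 : (0 : ℝ) < n := by exact_mod_cast (by omega : 0 < n)
  have : NeZero n := ⟨by omega⟩
  have hs19 : ν * n / 2 + 19 ≤ ν * n := by
    have : 38 ≤ ν * n := by
      rw [div_le_iff₀ hν] at hnN2; linarith
    linarith
  have hexp : Real.exp (-((ν * n / 2) ^ 2 / (72 * n))) = Real.exp (-(n * (ν ^ 2 / 288))) := by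
    congr 1
    field_simp
    ring
  have hsmall := hN1 n hnN1
  -- bad events
  set P : ℝ := (Fintype.card (V ≃ ZMod n) : ℝ) with hP
  have hne : Nonempty (V ≃ ZMod n) := ⟨Fintype.equivOfCardEq (by rw [ZMod.card])⟩
  have hPpos : 0 < P := by rw [hP]; exact Nat.cast_pos.2 Fintype.card_pos
  obtain ⟨A, hA⟩ : ∃ A : V → V → V → Prop, ∀ x z u, A x z u ↔ ({x, z, u} : Finset V) ∈ H :=
    ⟨fun x z u => ({x, z, u} : Finset V) ∈ H, fun _ _ _ => Iff.rfl⟩
  have hAc : ∀ x z, (univ.filter fun u => A x z u).card = cod H x z := by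
    intro x z
    unfold cod
    congr 1
    ext u
    rw [mem_filter, mem_filter, hA]
  obtain ⟨B0, hB0⟩ : ∃ B0 : V → V → Prop, ∀ z u, ¬ B0 z u := ⟨fun _ _ => False, fun _ _ => id⟩
  have hBc : ∀ z, (univ.filter fun u => B0 z u).card = 0 := by
    intro z
    rw [card_eq_zero, filter_eq_empty_iff]
    exact fun u _ => hB0 z u
  set f1 : V × V → (V ≃ ZMod n) → ℝ := fun q φ => |(NWT.unc φ q.1 q.2 (nbr E q.1)
      (A q.1) B0 : ℝ) - ∑ z ∈ nbr E q.1, (1 - (cod H q.1 z : ℝ) / n)| with hf1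
  set f2 : V × V → (V ≃ ZMod n) → ℝ := fun q φ => |(NWT.unc φ q.1 q.2
      (univ.filter fun z => ({q.1, q.2, z} : Finset V) ∈ H) (A q.1) (A q.2) : ℝ) -
      ∑ z ∈ univ.filter (fun z => ({q.1, q.2, z} : Finset V) ∈ H),
        (1 - (cod H q.1 z : ℝ) / n) * (1 - (cod H q.2 z : ℝ) / n)| with hf2
  have hb1 : ∀ q : V × V, q.1 ≠ q.2 →
      ((univ.filter fun φ : V ≃ ZMod n => ν * n / 2 + 19 ≤ f1 q φ).card : ℝ) ≤
      2 * Real.exp (-(n * (ν ^ 2 / 288))) * P := by
    intro q hq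
    have := NWT.unc_conc (n := n) hnV.symm hq (nbr E q.1) (A q.1) B0 (s := ν * n / 2)
      (by positivity)
    rw [hexp] at this
    simp only [hAc, hBc, Nat.cast_zero, zero_div, sub_zero, mul_one] at this
    exact this
  have hb2 : ∀ q : V × V, q.1 ≠ q.2 →
      ((univ.filter fun φ : V ≃ ZMod n => ν * n / 2 + 19 ≤ f2 q φ).card : ℝ) ≤
      2 * Real.exp (-(n * (ν ^ 2 / 288))) * P := by
    intro q hq
    have := NWT.unc_conc (n := n) hnV.symm hq
      (univ.filter fun z => ({q.1, q.2, z} : Finset V) ∈ H) (A q.1) (A q.2)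
      (s := ν * n / 2) (by positivity)
    rw [hexp] at this
    simp only [hAc] at this
    exact this
  obtain ⟨φ, hφ⟩ : ∃ φ : V ≃ ZMod n, ∀ q : V × V, q.1 ≠ q.2 →
      f1 q φ ≤ ν * n ∧ f2 q φ ≤ ν * n := by
    by_contra hcon
    push Not at hcon
    have hcov : (univ : Finset (V ≃ ZMod n)) ⊆
        (univ.filter fun q : V × V => q.1 ≠ q.2).biUnion fun q =>
          (univ.filter fun φ : V ≃ ZMod n => ν * n / 2 + 19 ≤ f1 q φ) ∪
          (univ.filter fun φ : V ≃ ZMod n => ν * n / 2 + 19 ≤ f2 q φ) := by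
      intro φ _
      obtain ⟨q, hq, hh⟩ := hcon φ
      rw [mem_biUnion]
      refine ⟨q, by simpa using hq, ?_⟩
      rw [mem_union, mem_filter, mem_filter]
      by_cases g : f1 q φ ≤ ν * n
      · right; exact ⟨mem_univ _, by linarith [hh g]⟩
      · left; exact ⟨mem_univ _, by push Not at g; linarith⟩
    have h1 := card_le_card hcov
    have h2 : P ≤ ∑ q ∈ univ.filter (fun q : V × V => q.1 ≠ q.2),
        4 * Real.exp (-(n * (ν ^ 2 / 288))) * P := by
      calc P = ((univ : Finset (V ≃ ZMod n)).card : ℝ) := by rw [hP, Finset.card_univ]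
        _ ≤ (((univ.filter fun q : V × V => q.1 ≠ q.2).biUnion fun q =>
          (univ.filter fun φ : V ≃ ZMod n => ν * n / 2 + 19 ≤ f1 q φ) ∪
          (univ.filter fun φ : V ≃ ZMod n => ν * n / 2 + 19 ≤ f2 q φ)).card : ℝ) := by
            exact_mod_cast h1
        _ ≤ ∑ q ∈ univ.filter (fun q : V × V => q.1 ≠ q.2),
          (((univ.filter fun φ : V ≃ ZMod n => ν * n / 2 + 19 ≤ f1 q φ) ∪
          (univ.filter fun φ : V ≃ ZMod n => ν * n / 2 + 19 ≤ f2 q φ)).card : ℝ) := by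
            exact_mod_cast card_biUnion_le
        _ ≤ _ := by
            refine sum_le_sum fun q hq => ?_
            rw [mem_filter] at hq
            have c1 : (((univ.filter fun φ : V ≃ ZMod n => ν * n / 2 + 19 ≤ f1 q φ) ∪
              (univ.filter fun φ : V ≃ ZMod n => ν * n / 2 + 19 ≤ f2 q φ)).card : ℝ) ≤
              ((univ.filter fun φ : V ≃ ZMod n => ν * n / 2 + 19 ≤ f1 q φ).card : ℝ) +
              ((univ.filter fun φ : V ≃ ZMod n => ν * n / 2 + 19 ≤ f2 q φ).card : ℝ) := by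
              exact_mod_cast card_union_le _ _
            have := hb1 q hq.2
            have := hb2 q hq.2
            linarith
    rw [sum_const, nsmul_eq_mul] at h2
    have h3 : ((univ.filter fun q : V × V => q.1 ≠ q.2).card : ℝ) ≤ (n : ℝ) ^ 2 := by
      have : (univ.filter fun q : V × V => q.1 ≠ q.2).card ≤ n ^ 2 := by
        refine (card_le_card (subset_univ _)).trans ?_
        rw [Finset.card_univ, Fintype.card_prod, ← hnV]
        exact le_of_eq (by ring)
      exact_mod_cast this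
    have h4 : 0 < Real.exp (-((n : ℝ) * (ν ^ 2 / 288))) := Real.exp_pos _
    have h5 : P ≤ (n : ℝ) ^ 2 * (4 * Real.exp (-(n * (ν ^ 2 / 288))) * P) :=
      h2.trans (mul_le_mul_of_nonneg_right h3 (by positivity))
    have h6 : (n : ℝ) ^ 2 * (4 * Real.exp (-(n * (ν ^ 2 / 288))) * P) =
        4 * ((n : ℝ) ^ 2 * Real.exp (-(n * (ν ^ 2 / 288)))) * P := by ring
    rw [h6] at h5
    nlinarith
  refine ⟨biteM H φ, filter_subset _ _, biteM_disj hH' φ, ?_, ?_⟩
  · intro x
    obtain ⟨y, hy⟩ : ∃ y : V, x ≠ y := by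
      by_contra hcon
      push Not at hcon
      have : Fintype.card V ≤ 1 := Fintype.card_le_one_iff.2 fun a b => (hcon a).symm.trans (hcon b)
      omega
    have := (hφ (x, y) hy).1
    rw [deg_eq_unc hE hH' φ x y (A x) B0 (hA x) hB0]
    exact this
  · intro x y hxy
    have hne' : x ≠ y := fun h => hE _ (mem_sdiff.1 hxy).1 (by rw [h]; exact Sym2.mk_isDiag_iff.2 rfl)
    have := (hφ (x, y) hne').2
    rw [cod_eq_unc hH φ hxy (univ.filter fun z => ({x, y, z} : Finset V) ∈ H)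
      (fun z => by rw [mem_filter]; simp) (A x) (A y) (hA x) (hA y)]
    exact this

end NW
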