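import Pool.Agent.NW.N2C.Bite
import Pool.Agent.NW.Conc
import Pool.Agent.NW.Statements

/-! # Choice of an unweighted triangle set from a weighting -/

set_option autoImplicit false

open Finset

namespace NW

section

variable {V : Type} [Fintype V] [DecidableEq V]

/-- the triangles of `E` containing the edge `xy` -/
def triE (E : Finset (Sym2 V)) (x y : V) : Finset (Finset V) :=
  univ.filter fun t => t.card = 3 ∧ edg t ⊆ E ∧ s(x, y) ∈ edg t

theorem triple_inj {x y z z' : V} (h : ({x, y, z} : Finset V).card = 3)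
    (h' : ({x, y, z'} : Finset V).card = 3) (he : ({x, y, z} : Finset V) = {x, y, z'}) :
    z = z' := by
  obtain ⟨h1, h2, h3⟩ := distinct_of_card h
  have : z ∈ ({x, y, z'} : Finset V) := by rw [← he]; simp
  simp only [mem_insert, mem_singleton] at this
  rcases this with rfl | rfl | rfl
  · exact absurd rfl h2
  · exact absurd rfl h3
  · rfl

/-- codegree as a number of triangles -/
theorem cod_eq_card {E : Finset (Sym2 V)} {H : Finset (Finset V)}
    (hH : ∀ t ∈ H, t.card = 3 ∧ edg t ⊆ E) {x y : V} (hxy : x ≠ y) :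
    cod H x y = ((triE E x y).filter fun t => t ∈ H).card := by
  unfold cod
  refine Finset.card_bij (fun z _ => ({x, y, z} : Finset V)) ?_ ?_ ?_
  · intro z hz
    rw [mem_filter] at hz
    rw [mem_filter, triE, mem_filter]
    exact ⟨⟨mem_univ _, (hH _ hz.2).1, (hH _ hz.2).2, mk_mem_edg.2 ⟨by simp, by simp, hxy⟩⟩, hz.2⟩
  · intro z hz z' hz' he
    rw [mem_filter] at hz hz'
    exact triple_inj (hH _ hz.2).1 (hH _ hz'.2).1 he
  · intro t ht
    rw [mem_filter, triE, mem_filter] at ht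
    obtain ⟨⟨-, h1, h2, h3⟩, h4⟩ := ht
    rw [mk_mem_edg] at h3
    obtain ⟨u, rfl⟩ := exists_third h1 h3.1 h3.2.1 hxy
    exact ⟨u, by rw [mem_filter]; exact ⟨mem_univ _, h4⟩, rfl⟩

theorem card_triE_le (E : Finset (Sym2 V)) {x y : V} (hxy : x ≠ y) :
    (triE E x y).card ≤ Fintype.card V := by
  have hsub : triE E x y ⊆ univ.image fun z => ({x, y, z} : Finset V) := by
    intro t ht
    rw [triE, mem_filter] at ht
    obtain ⟨-, h1, h2, h3⟩ := ht
    rw [mk_mem_edg] at h3
    obtain ⟨u, rfl⟩ := exists_third h1 h3.1 h3.2.1 hxy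
    exact mem_image.2 ⟨u, mem_univ _, rfl⟩
  calc (triE E x y).card ≤ (univ.image fun z => ({x, y, z} : Finset V)).card := card_le_card hsub
    _ ≤ (univ : Finset V).card := card_image_le
    _ = Fintype.card V := Finset.card_univ

theorem wsum_eq {E : Finset (Sym2 V)} {w : Finset V → ℝ} {C : ℝ} (hw : IsWt E w C) (x y : V) :
    wsum w s(x, y) = ∑ t ∈ triE E x y, w t := by
  unfold wsum
  symm
  refine Finset.sum_subset ?_ ?_
  · intro t ht
    rw [triE, mem_filter] at ht
    rw [mem_filter]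
    exact ⟨mem_univ _, ht.2.2.2⟩
  · intro t ht ht'
    rw [mem_filter] at ht
    by_contra hne
    have := hw.2.2 t hne
    exact ht' (by rw [triE, mem_filter]; exact ⟨mem_univ _, this.1, this.2, ht.2⟩)

end

theorem select (C κ : ℝ) (hC : 0 < C) (hκ : 0 < κ) : ∃ n0 : ℕ,
    ∀ (V : Type) [Fintype V] [DecidableEq V] (E : Finset (Sym2 V)), NL E → n0 ≤ Fintype.card V →
    ∀ w : Finset V → ℝ, IsWt E w C →
    ∃ H : Finset (Finset V), (∀ t ∈ H, t.card = 3 ∧ edg t ⊆ E) ∧
      ∀ x y, s(x, y) ∈ E →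
        |(cod H x y : ℝ) - Fintype.card V / C * wsum w s(x, y)| ≤ κ * Fintype.card V := by
  classical
  have hlim : Filter.Tendsto (fun x : ℝ => x ^ 2 * Real.exp (-(x * (κ ^ 2 / 2))))
      Filter.atTop (nhds 0) := by
    have h1 := (Real.tendsto_pow_mul_exp_neg_atTop_nhds_zero 2).comp
      (Filter.tendsto_id.atTop_mul_const (show (0 : ℝ) < κ ^ 2 / 2 by positivity))
    have h2 := h1.const_mul ((κ ^ 2 / 2) ^ 2)⁻¹
    rw [mul_zero] at h2
    refine h2.congr fun x => ?_
    simp only [Function.comp, id]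
    have : (κ ^ 2 / 2) ≠ 0 := by positivity
    field_simp
  have hev := (hlim.eventually (gt_mem_nhds (show (0 : ℝ) < 1 / 4 by norm_num)))
  obtain ⟨N1, hN1⟩ := Filter.eventually_atTop.1 hev
  refine ⟨max ⌈N1⌉₊ 1, ?_⟩
  intro V _ _ E hE hn w hw
  set n := Fintype.card V with hnV
  have hn1 : 1 ≤ n := (le_max_right _ _).trans hn
  have hn0 : (0 : ℝ) < n := by exact_mod_cast hn1
  have hnN1 : N1 ≤ n := (Nat.le_ceil N1).trans (by exact_mod_cast (le_max_left _ _).trans hn)
  have hsmall := hN1 n hnN1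
  set pr : Finset V → ℝ := fun t => w t * n / C with hpr
  have hpr0 : ∀ t, 0 ≤ pr t := fun t => by
    rw [hpr]; exact div_nonneg (mul_nonneg (hw.1 t) hn0.le) hC.le
  have hpr1 : ∀ t, pr t ≤ 1 := fun t => by
    rw [hpr]; exact (div_le_one hC).2 (hw.2.1 t)
  have hp : ∀ t, NWC.PW (NWC.coinW (pr t)) := fun t => NWC.pw_coin (hpr0 t) (hpr1 t)
  have hex : ∀ t, NWC.Ex (NWC.coinW (pr t)) (fun b => if b then (1 : ℝ) else 0) = pr t := by
    intro t
    simp [NWC.Ex, NWC.coinW]
  set bad : V × V → (Finset V → Bool) → Prop := fun q ω =>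
    κ * n ≤ |(∑ t ∈ triE E q.1 q.2, if ω t then (1 : ℝ) else 0) - ∑ t ∈ triE E q.1 q.2, pr t|
    with hbad
  have hb : ∀ q : V × V, q.1 ≠ q.2 →
      NWC.Pr (NWC.prodW fun t => NWC.coinW (pr t)) (bad q) ≤
      2 * Real.exp (-(n * (κ ^ 2 / 2))) := by
    intro q hq
    have hcard : ((triE E q.1 q.2).card : ℝ) ≤ n := by exact_mod_cast card_triE_le E hq
    have u := NWC.hoeffding_upper hp (triE E q.1 q.2) (fun _ b => if b then (1 : ℝ) else 0)
      (fun _ a => by split_ifs <;> norm_num)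
      (fun _ a => by split_ifs <;> norm_num) n hn0 hcard (κ * n) (by positivity)
    have l := NWC.hoeffding_lower hp (triE E q.1 q.2) (fun _ b => if b then (1 : ℝ) else 0)
      (fun _ a => by split_ifs <;> norm_num)
      (fun _ a => by split_ifs <;> norm_num) n hn0 hcard (κ * n) (by positivity)
    simp only [hex] at u l
    have he : Real.exp (-((κ * n) ^ 2 / (2 * n))) = Real.exp (-(n * (κ ^ 2 / 2))) := by
      congr 1
      field_simp
    rw [he] at u l
    refine (NWC.pr_mono (NWC.pw_prod hp) (F := fun ω =>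
      ((∑ t ∈ triE E q.1 q.2, pr t) + κ * n ≤ ∑ t ∈ triE E q.1 q.2, if ω t then (1 : ℝ) else 0) ∨
      (∑ t ∈ triE E q.1 q.2, (if ω t then (1 : ℝ) else 0)) ≤
        (∑ t ∈ triE E q.1 q.2, pr t) - κ * n) ?_).trans ?_
    · intro ω hω
      rcases le_abs.1 hω with h | h
      · left; linarith
      · right; linarith
    · refine (NWC.pr_or (NWC.pw_prod hp) _ _).trans ?_
      linarith
  obtain ⟨ω, -, hω⟩ := NWC.exists_avoid_card (NWC.pw_prod hp)
    (univ.filter fun q : V × V => q.1 ≠ q.2) bad (2 * Real.exp (-(n * (κ ^ 2 / 2))))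
    (fun q hq => hb q (mem_filter.1 hq).2) (by
      have h3 : ((univ.filter fun q : V × V => q.1 ≠ q.2).card : ℝ) ≤ (n : ℝ) ^ 2 := by
        have : (univ.filter fun q : V × V => q.1 ≠ q.2).card ≤ n ^ 2 := by
          refine (card_le_card (subset_univ _)).trans ?_
          rw [Finset.card_univ, Fintype.card_prod, ← hnV]
          exact le_of_eq (by ring)
        exact_mod_cast this
      have h4 : 0 < Real.exp (-((n : ℝ) * (κ ^ 2 / 2))) := Real.exp_pos _
      have h5 := mul_le_mul_of_nonneg_right h3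
        (show 0 ≤ 2 * Real.exp (-((n : ℝ) * (κ ^ 2 / 2))) by positivity)
      linarith)
  refine ⟨univ.filter fun t => ω t = true ∧ t.card = 3 ∧ edg t ⊆ E, ?_, ?_⟩
  · intro t ht
    exact (mem_filter.1 ht).2.2
  · intro x y hxy
    have hne : x ≠ y := fun h => hE _ hxy (by rw [h]; exact Sym2.mk_isDiag_iff.2 rfl)
    have h1 := hω (x, y) (by simpa using hne)
    rw [hbad] at h1
    simp only [not_le] at h1
    rw [cod_eq_card (E := E) (fun t ht => (mem_filter.1 ht).2.2) hne]
    have e1 : (((triE E x y).filter fun t =>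
        t ∈ univ.filter fun t => ω t = true ∧ t.card = 3 ∧ edg t ⊆ E).card : ℝ) =
        ∑ t ∈ triE E x y, if ω t then (1 : ℝ) else 0 := by
      rw [← Finset.sum_filter, Finset.sum_const, nsmul_eq_mul, mul_one]
      congr 2
      ext t
      simp only [mem_filter, mem_univ, true_and]
      constructor
      · rintro ⟨h2, h3, -⟩; exact ⟨h2, h3⟩
      · rintro ⟨h2, h3⟩
        refine ⟨h2, h3, ?_⟩
        rw [triE, mem_filter] at h2
        exact ⟨h2.2.1, h2.2.2.1⟩
    have e2 : (n : ℝ) / C * wsum w s(x, y) = ∑ t ∈ triE E x y, pr t := by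
      rw [wsum_eq hw, Finset.mul_sum]
      refine Finset.sum_congr rfl fun t _ => ?_
      rw [hpr]; ring
    rw [e1, e2]
    exact h1.le

end NW
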