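import Pool.Agent.NW.N2C.Rec
import Pool.Agent.NW.N2C.Select

/-! # The nibble (route N2C): `NibbleStatement` -/

set_option autoImplicit false

open Finset

namespace NW

/-- the nibble for `γ ≤ 1`, without any condition on the degrees -/
theorem nibble_aux (γ : ℝ) (hγ : 0 < γ) (hγ1 : γ ≤ 1) (C : ℝ) : ∃ n0 : ℕ,
    ∀ (V : Type) [Fintype V] [DecidableEq V] (E : Finset (Sym2 V)), NL E →
      n0 ≤ Fintype.card V →
      ∀ w : Finset V → ℝ, IsWt E w C →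
      (∀ e ∈ E, 1 - γ ^ 34 / 64 ≤ wsum w e ∧ wsum w e ≤ 1 + γ ^ 34 / 64) →
      ∃ 𝒯 : Finset (Finset V), IsPack 𝒯 E ∧
        ∀ v, (deg (E \ 𝒯.biUnion edg) v : ℝ) ≤ γ * (Fintype.card V : ℝ) := by
  set C' : ℝ := max C 2 with hC'
  have hC'2 : 2 ≤ C' := le_max_right _ _
  have hC'0 : 0 < C' := by linarith
  set p : ℝ := 1 / C' with hp
  have hp0 : 0 < p := by positivity
  have hp2 : p ≤ 1 / 2 := by
    rw [hp]; exact one_div_le_one_div_of_le (by norm_num) hC'2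
  obtain ⟨n1, h1⟩ := rec_bites hγ hγ1 hp0 hp2
  obtain ⟨n2, h2⟩ := select C' (γ ^ 34 / 64 * p) hC'0 (by positivity)
  refine ⟨max n1 n2, ?_⟩
  intro V _ _ E hE hn w hw hsum
  have hw' : IsWt E w C' := ⟨hw.1, fun t => (hw.2.1 t).trans (le_max_left _ _), hw.2.2⟩
  obtain ⟨H, hH, hcod⟩ := h2 V E hE ((le_max_right _ _).trans hn) w hw'
  refine h1 V E H hE ((le_max_left _ _).trans hn) hH ?_
  intro x y hxy
  have h3 := abs_le.1 (hcod x y hxy)
  have h4 := hsum _ hxy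
  have hn0 : (0 : ℝ) ≤ Fintype.card V := Nat.cast_nonneg _
  set n : ℝ := (Fintype.card V : ℝ) with hnn
  have e1 : n / C' * wsum w s(x, y) = p * n * wsum w s(x, y) := by rw [hp]; ring
  rw [e1] at h3
  have hpn : 0 ≤ p * n := by positivity
  have h5 : p * n * wsum w s(x, y) ≤ p * n * (1 + γ ^ 34 / 64) :=
    mul_le_mul_of_nonneg_left h4.2 hpn
  have h6 : p * n * (1 - γ ^ 34 / 64) ≤ p * n * wsum w s(x, y) :=
    mul_le_mul_of_nonneg_left h4.1 hpn
  rw [abs_le]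
  constructor
  · nlinarith [h3.1]
  · nlinarith [h3.2]

/-- **N2.** -/
theorem nibble_N2C : NibbleStatement := by
  intro γ hγ
  have hm0 : 0 < min γ 1 := lt_min hγ one_pos
  refine ⟨(min γ 1) ^ 34 / 64, by positivity, ?_⟩
  intro C
  obtain ⟨n0, h⟩ := nibble_aux (min γ 1) hm0 (min_le_right _ _) C
  refine ⟨n0, ?_⟩
  intro V _ _ E hE hn _ w hw hsum
  have hpos : 0 ≤ (min γ 1) ^ 34 / 64 := by positivity
  obtain ⟨𝒯, h1, h2⟩ := h V E hE hn w hw (fun e he => ⟨(hsum e he).1, by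
    have := (hsum e he).2; linarith⟩)
  refine ⟨𝒯, h1, fun v => (h2 v).trans ?_⟩
  exact mul_le_mul_of_nonneg_right (min_le_left _ _) (Nat.cast_nonneg _)

end NW
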