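import Pool.Agent.NW.N2C.Bite

/-! # The recursion of the bijection nibble -/

set_option autoImplicit false

open Finset

namespace NW

section State

variable {V : Type} [Fintype V] [DecidableEq V]

/-- the state of the nibble: packing `𝒯` so far, uncovered edges `E`, live triangles `H` -/
structure St (E0 : Finset (Sym2 V)) (p a g b : ℝ) (𝒯 : Finset (Finset V)) (E : Finset (Sym2 V))
    (H : Finset (Finset V)) : Prop where
  pack : IsPack 𝒯 E0
  eq : E = E0 \ 𝒯.biUnion edg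
  tri : ∀ t ∈ H, t.card = 3 ∧ edg t ⊆ E
  codg : ∀ x y, s(x, y) ∈ E →
    |(cod H x y : ℝ) - p * a ^ 2 * Fintype.card V| ≤ g * (p * a ^ 2) * Fintype.card V
  degb : ∀ x, (deg E x : ℝ) ≤ b * Fintype.card V

end State

theorem real_upper {q g : ℝ} (hq0 : 0 ≤ q) (hq : q ≤ 1 / 2) (hg0 : 0 ≤ g) (hg : g ≤ 1 / 32) :
    (1 + g) * (1 - q * (1 - g)) ^ 2 ≤ (1 - q) ^ 2 * (1 + g * (1 + 6 * q)) := by
  have h1 : 0 ≤ q * g := mul_nonneg hq0 hg0
  have h2 : q * g ≤ 1 / 64 := by nlinarith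
  have h3 : (1 / 2 : ℝ) ≤ 1 - q := by linarith
  -- (1 - q + q g)^2 = (1-q)^2 + 2 (1-q) q g + q^2 g^2
  have h4 : (1 - q * (1 - g)) ^ 2 = (1 - q) ^ 2 + 2 * (1 - q) * (q * g) + (q * g) ^ 2 := by ring
  have h5 : (1 - q) ^ 2 * (1 + g * (1 + 6 * q)) - (1 + g) * (1 - q * (1 - g)) ^ 2 =
      (q * g) * (6 * (1 - q) ^ 2 - 2 * (1 - q) - q * g - g * (2 * (1 - q) + q * g)) := by
    rw [h4]; ring
  have h6 : 0 ≤ 6 * (1 - q) ^ 2 - 2 * (1 - q) - q * g - g * (2 * (1 - q) + q * g) := by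
    have e1 : 2 * (1 - q) ≤ 4 * (1 - q) ^ 2 := by nlinarith
    have e2 : (1 / 2 : ℝ) ≤ 2 * (1 - q) ^ 2 := by nlinarith
    have e3 : g * (2 * (1 - q) + q * g) ≤ 1 / 32 * 3 := by
      refine mul_le_mul hg (by linarith) (by positivity) (by norm_num)
    linarith
  have := mul_nonneg h1 h6
  linarith

theorem real_lower {q g : ℝ} (hq0 : 0 ≤ q) (hq : q ≤ 1 / 2) (hg0 : 0 ≤ g) (hg : g ≤ 1 / 32) :
    (1 - q) ^ 2 * (1 - g * (1 + 6 * q)) ≤ (1 - g) * (1 - q * (1 + g)) ^ 2 := by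
  have h1 : 0 ≤ q * g := mul_nonneg hq0 hg0
  have h3 : (1 / 2 : ℝ) ≤ 1 - q := by linarith
  have h5 : (1 - g) * (1 - q * (1 + g)) ^ 2 - (1 - q) ^ 2 * (1 - g * (1 + 6 * q)) =
      (q * g) * (6 * (1 - q) ^ 2 - 2 * (1 - q) + q * g + g * (2 * (1 - q) - q * g)) := by
    ring
  have h6 : 0 ≤ 6 * (1 - q) ^ 2 - 2 * (1 - q) + q * g + g * (2 * (1 - q) - q * g) := by
    have e1 : 2 * (1 - q) ≤ 4 * (1 - q) ^ 2 := by nlinarith
    have e3 : 0 ≤ g * (2 * (1 - q) - q * g) := mul_nonneg hg0 (by nlinarith)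
    nlinarith [sq_nonneg (1 - q)]
  have := mul_nonneg h1 h6
  linarith

theorem real_pow {q : ℝ} (hq0 : 0 ≤ q) (hq : q ≤ 1 / 2) :
    (1 + 6 * q) * (1 - q) ^ 17 ≤ 1 - q := by
  have h1 : (1 + 16 * q) * (1 - q) ^ 16 ≤ 1 := by
    have hb := one_add_mul_le_pow (show (-2 : ℝ) ≤ q by linarith) 16
    have h2 : (1 + q) ^ 16 * (1 - q) ^ 16 ≤ 1 := by
      rw [← mul_pow]
      exact pow_le_one₀ (by nlinarith) (by nlinarith)
    have h3 : 0 ≤ (1 - q) ^ 16 := by positivity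
    have h4 : (1 + 16 * q) * (1 - q) ^ 16 ≤ (1 + q) ^ 16 * (1 - q) ^ 16 := by
      refine mul_le_mul_of_nonneg_right ?_ h3
      push_cast at hb
      linarith
    linarith
  have h5 : (1 + 6 * q) * (1 - q) ^ 16 ≤ 1 := by
    have h3 : 0 ≤ (1 - q) ^ 16 := by positivity
    nlinarith
  calc (1 + 6 * q) * (1 - q) ^ 17 = ((1 + 6 * q) * (1 - q) ^ 16) * (1 - q) := by ring
    _ ≤ 1 * (1 - q) := mul_le_mul_of_nonneg_right h5 (by linarith)
    _ = 1 - q := one_mul _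

/-- one step of the recursion -/
theorem St.step {ν : ℝ} {V : Type} [Fintype V] [DecidableEq V]
    (hbite : ∀ (E : Finset (Sym2 V)) (H : Finset (Finset V)), NL E →
      (∀ t ∈ H, t.card = 3 ∧ edg t ⊆ E) →
      ∃ M : Finset (Finset V), M ⊆ H ∧
      (∀ t ∈ M, ∀ t' ∈ M, t ≠ t' → Disjoint (edg t) (edg t')) ∧
      (∀ x, |(deg (E \ M.biUnion edg) x : ℝ) -
        ∑ z ∈ nbr E x, (1 - (cod H x z : ℝ) / Fintype.card V)| ≤ ν * Fintype.card V) ∧
      (∀ x y, s(x, y) ∈ E \ M.biUnion edg →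
        |(cod (H.filter fun t => edg t ⊆ E \ M.biUnion edg) x y : ℝ) -
          ∑ z ∈ univ.filter (fun z => ({x, y, z} : Finset V) ∈ H),
            (1 - (cod H x z : ℝ) / Fintype.card V) * (1 - (cod H y z : ℝ) / Fintype.card V)| ≤
          ν * Fintype.card V))
    (hcard : 0 < Fintype.card V) (hν : 0 < ν)
    {E0 : Finset (Sym2 V)} (hE0 : NL E0) {p a g b : ℝ} {𝒯 : Finset (Finset V)}
    {E : Finset (Sym2 V)} {H : Finset (Finset V)} (h : St E0 p a g b 𝒯 E H)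
    (hp : 0 < p) (hp2 : p ≤ 1 / 2) (ha : 0 < a) (ha1 : a ≤ 1) (hg0 : 0 ≤ g) (hg : g ≤ 1 / 32)
    (hb0 : 0 ≤ b) :
    ∃ (𝒯' : Finset (Finset V)) (E' : Finset (Sym2 V)) (H' : Finset (Finset V)),
      St E0 p (a * (1 - p * a ^ 2)) (g * (1 + 6 * (p * a ^ 2)) + 4 * ν / (p * a ^ 2))
        ((1 - 31 / 32 * (p * a ^ 2)) * b + ν) 𝒯' E' H' := by
  set n : ℝ := (Fintype.card V : ℝ) with hn
  have hn0 : 0 < n := Nat.cast_pos.2 hcard
  set q := p * a ^ 2 with hq
  have hq0 : 0 < q := by positivity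
  have hq2 : q ≤ 1 / 2 := by
    have : a ^ 2 ≤ 1 := by nlinarith
    nlinarith
  have hNE : NL E := by rw [h.eq]; exact hE0.mono sdiff_subset
  obtain ⟨M, hMH, hMd, hdeg, hcod⟩ := hbite E H hNE h.tri
  set E' := E \ M.biUnion edg with hE'
  have hMtri : ∀ t ∈ M, t.card = 3 ∧ edg t ⊆ E := fun t ht => h.tri t (hMH ht)
  have hEsub : E ⊆ E0 := by rw [h.eq]; exact sdiff_subset
  have hTM : ∀ t ∈ 𝒯, ∀ t' ∈ M, Disjoint (edg t) (edg t') := by
    intro t ht t' ht'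
    rw [Finset.disjoint_left]
    intro e he he'
    have h1 := (hMtri t' ht').2 he'
    rw [h.eq, mem_sdiff] at h1
    exact h1.2 (mem_biUnion.2 ⟨t, ht, he⟩)
  -- bounds for the codegrees of live triangles
  have hcb : ∀ x y, s(x, y) ∈ E → q * (1 - g) ≤ (cod H x y : ℝ) / n ∧
      (cod H x y : ℝ) / n ≤ q * (1 + g) := by
    intro x y hxy
    have := abs_le.1 (h.codg x y hxy)
    rw [← hq, ← hn] at this
    constructor
    · rw [le_div_iff₀ hn0]; nlinarith [this.1]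
    · rw [div_le_iff₀ hn0]; nlinarith [this.2]
  refine ⟨𝒯 ∪ M, E', H.filter fun t => edg t ⊆ E', ?_⟩
  constructor
  · -- pack
    refine ⟨?_, ?_⟩
    · intro t ht
      rcases mem_union.1 ht with ht | ht
      · exact h.pack.1 t ht
      · exact ⟨(hMtri t ht).1, (hMtri t ht).2.trans hEsub⟩
    · intro t ht t' ht' hne
      rcases mem_union.1 ht with ht | ht <;> rcases mem_union.1 ht' with ht' | ht'
      · exact h.pack.2 t ht t' ht' hne
      · exact hTM t ht t' ht'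
      · exact (hTM t' ht' t ht).symm
      · exact hMd t ht t' ht' hne
  · -- eq
    rw [hE', h.eq]
    ext e
    simp only [mem_sdiff, mem_biUnion, mem_union]
    constructor
    · rintro ⟨⟨h1, h2⟩, h3⟩
      refine ⟨h1, ?_⟩
      rintro ⟨t, ht | ht, he⟩
      · exact h2 ⟨t, ht, he⟩
      · exact h3 ⟨t, ht, he⟩
    · rintro ⟨h1, h2⟩
      exact ⟨⟨h1, fun ⟨t, ht, he⟩ => h2 ⟨t, Or.inl ht, he⟩⟩, fun ⟨t, ht, he⟩ => h2 ⟨t, Or.inr ht, he⟩⟩
  · -- tri
    intro t ht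
    rw [mem_filter] at ht
    exact ⟨(h.tri t ht.1).1, ht.2⟩
  · -- codegrees
    intro x y hxy
    have hxyE : s(x, y) ∈ E := (mem_sdiff.1 hxy).1
    have h1 := abs_le.1 (hcod x y hxy)
    set Z := univ.filter (fun z => ({x, y, z} : Finset V) ∈ H) with hZ
    have hZc : (Z.card : ℝ) = (cod H x y : ℝ) := rfl
    have hzE : ∀ z ∈ Z, s(x, z) ∈ E ∧ s(y, z) ∈ E := by
      intro z hz
      rw [hZ, mem_filter] at hz
      obtain ⟨h2, h3, h4⟩ := distinct_of_card (h.tri _ hz.2).1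
      exact ⟨(h.tri _ hz.2).2 (mk_mem_edg.2 ⟨by simp, by simp, h3⟩),
        (h.tri _ hz.2).2 (mk_mem_edg.2 ⟨by simp, by simp, h4⟩)⟩
    have hlow : ∀ z ∈ Z, (1 - q * (1 + g)) ^ 2 ≤
        (1 - (cod H x z : ℝ) / n) * (1 - (cod H y z : ℝ) / n) := by
      intro z hz
      have c1 := hcb x z (hzE z hz).1
      have c2 := hcb y z (hzE z hz).2
      have c3 : 0 ≤ 1 - q * (1 + g) := by nlinarith
      rw [pow_two]
      exact mul_le_mul (by linarith [c1.2]) (by linarith [c2.2]) c3 (by linarith [c1.2])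
    have hupp : ∀ z ∈ Z, (1 - (cod H x z : ℝ) / n) * (1 - (cod H y z : ℝ) / n) ≤
        (1 - q * (1 - g)) ^ 2 := by
      intro z hz
      have c1 := hcb x z (hzE z hz).1
      have c2 := hcb y z (hzE z hz).2
      have c3 : 0 ≤ 1 - q * (1 + g) := by nlinarith
      rw [pow_two]
      exact mul_le_mul (by linarith [c1.1]) (by linarith [c2.1]) (by linarith [c2.2])
        (by linarith [c1.1, c1.2])
    have s1 : (Z.card : ℝ) * (1 - q * (1 + g)) ^ 2 ≤
        ∑ z ∈ Z, (1 - (cod H x z : ℝ) / n) * (1 - (cod H y z : ℝ) / n) := by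
      rw [← nsmul_eq_mul, ← Finset.sum_const]
      exact Finset.sum_le_sum hlow
    have s2 : ∑ z ∈ Z, (1 - (cod H x z : ℝ) / n) * (1 - (cod H y z : ℝ) / n) ≤
        (Z.card : ℝ) * (1 - q * (1 - g)) ^ 2 := by
      rw [← nsmul_eq_mul, ← Finset.sum_const]
      exact Finset.sum_le_sum hupp
    have hZb := hcb x y hxyE
    rw [le_div_iff₀ hn0] at hZb
    rw [div_le_iff₀ hn0] at hZb
    have u1 := real_upper hq0.le hq2 hg0 hg
    have u2 := real_lower hq0.le hq2 hg0 hg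
    have k1 : (Z.card : ℝ) * (1 - q * (1 - g)) ^ 2 ≤
        q * n * ((1 - q) ^ 2 * (1 + g * (1 + 6 * q))) := by
      calc (Z.card : ℝ) * (1 - q * (1 - g)) ^ 2 ≤ (q * (1 + g) * n) * (1 - q * (1 - g)) ^ 2 :=
            mul_le_mul_of_nonneg_right (by rw [hZc]; exact hZb.2) (sq_nonneg _)
        _ = q * n * ((1 + g) * (1 - q * (1 - g)) ^ 2) := by ring
        _ ≤ _ := mul_le_mul_of_nonneg_left u1 (by positivity)
    have k2 : q * n * ((1 - q) ^ 2 * (1 - g * (1 + 6 * q))) ≤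
        (Z.card : ℝ) * (1 - q * (1 + g)) ^ 2 := by
      calc q * n * ((1 - q) ^ 2 * (1 - g * (1 + 6 * q))) ≤
            q * n * ((1 - g) * (1 - q * (1 + g)) ^ 2) :=
            mul_le_mul_of_nonneg_left u2 (by positivity)
        _ = (q * (1 - g) * n) * (1 - q * (1 + g)) ^ 2 := by ring
        _ ≤ _ := mul_le_mul_of_nonneg_right (by rw [hZc]; exact hZb.1) (sq_nonneg _)
    have hq' : p * (a * (1 - q)) ^ 2 = q * (1 - q) ^ 2 := by rw [hq]; ring
    rw [hq', abs_le]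
    have e4 : (g * (1 + 6 * q) + 4 * ν / q) * (q * (1 - q) ^ 2) * n =
        q * n * ((1 - q) ^ 2 * (g * (1 + 6 * q))) + 4 * (1 - q) ^ 2 * (ν * n) := by
      field_simp
    have e5 : ν * n ≤ 4 * (1 - q) ^ 2 * (ν * n) := by
      have : 1 ≤ 4 * (1 - q) ^ 2 := by nlinarith
      have hνn : 0 < ν * n := by positivity
      nlinarith
    rw [e4]
    constructor
    · nlinarith [h1.1]
    · nlinarith [h1.2]
  · -- degrees
    intro x
    have h1 := (abs_le.1 (hdeg x)).2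
    have h2 : ∑ z ∈ nbr E x, (1 - (cod H x z : ℝ) / n) ≤
        (deg E x : ℝ) * (1 - 31 / 32 * q) := by
      unfold deg
      rw [← nsmul_eq_mul, ← Finset.sum_const]
      refine Finset.sum_le_sum fun z hz => ?_
      have := (hcb x z (mem_nbr.1 hz)).1
      nlinarith
    have h3 : (deg E x : ℝ) * (1 - 31 / 32 * q) ≤ (b * n) * (1 - 31 / 32 * q) :=
      mul_le_mul_of_nonneg_right (h.degb x) (by linarith)
    rw [← hn]
    linarith

/-- the recursion of constantly many bites -/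
theorem rec_bites {γ p : ℝ} (hγ : 0 < γ) (hγ1 : γ ≤ 1) (hp : 0 < p) (hp2 : p ≤ 1 / 2) :
    ∃ n0 : ℕ, ∀ (V : Type) [Fintype V] [DecidableEq V] (E : Finset (Sym2 V))
      (H : Finset (Finset V)), NL E → n0 ≤ Fintype.card V →
      (∀ t ∈ H, t.card = 3 ∧ edg t ⊆ E) →
      (∀ x y, s(x, y) ∈ E → |(cod H x y : ℝ) - p * Fintype.card V| ≤
        γ ^ 34 / 32 * p * Fintype.card V) →
      ∃ 𝒯 : Finset (Finset V), IsPack 𝒯 E ∧
        ∀ v, (deg (E \ 𝒯.biUnion edg) v : ℝ) ≤ γ * (Fintype.card V : ℝ) := by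
  set g1 : ℝ := γ ^ 34 / 32 with hg1
  have hg1pos : 0 < g1 := by positivity
  have hg1le : g1 ≤ 1 / 32 := by
    have : γ ^ 34 ≤ 1 := pow_le_one₀ hγ.le hγ1
    rw [hg1]; linarith
  set ν : ℝ := g1 * p ^ 2 * γ ^ 8 / 32 with hν
  have hνpos : 0 < ν := by positivity
  obtain ⟨n1, hn1⟩ := bite ν hνpos
  refine ⟨max n1 1, ?_⟩
  intro V _ _ E H hE hn hH hcod
  have hcard : 0 < Fintype.card V := lt_of_lt_of_le Nat.one_pos ((le_max_right _ _).trans hn)
  have hbite := hn1 V ((le_max_left _ _).trans hn)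
  have hn0 : (0 : ℝ) < Fintype.card V := Nat.cast_pos.2 hcard
  -- induction
  have key : ∀ j : ℕ, ∃ (a g b : ℝ) (𝒯 : Finset (Finset V)) (E' : Finset (Sym2 V))
      (H' : Finset (Finset V)), St E p a g b 𝒯 E' H' ∧ 0 < a ∧ a ≤ 1 ∧ 0 ≤ g ∧ g * a ^ 17 ≤ g1 ∧
      0 ≤ b ∧ b ^ 2 ≤ a ∧ (a ≤ γ ^ 2 ∨ a ≤ (1 - p * γ ^ 4) ^ j) := by
    intro j
    induction j with
    | zero =>
      refine ⟨1, g1, 1, ∅, E, H, ⟨⟨by simp, by simp⟩, by simp, hH, ?_, ?_⟩, one_pos, le_rfl,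
        hg1pos.le, by simp, zero_le_one, by norm_num, Or.inr (by simp)⟩
      · intro x y hxy
        have := hcod x y hxy
        simpa using this
      · intro x
        rw [one_mul]
        exact_mod_cast (card_le_univ _)
    | succ j ih =>
      obtain ⟨a, g, b, 𝒯, E', H', hst, ha, ha1, hg0, hg, hb0, hb, hor⟩ := ih
      by_cases hsmall : a ≤ γ ^ 2
      · exact ⟨a, g, b, 𝒯, E', H', hst, ha, ha1, hg0, hg, hb0, hb, Or.inl hsmall⟩
      push Not at hsmall
      have hor' : a ≤ (1 - p * γ ^ 4) ^ j := by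
        rcases hor with h | h
        · exact absurd h (not_le.2 hsmall)
        · exact h
      set q := p * a ^ 2 with hq
      have ha2 : a ^ 2 ≤ 1 := by nlinarith
      have hγa : γ ^ 4 ≤ a ^ 2 := by
        have : γ ^ 4 = (γ ^ 2) ^ 2 := by ring
        rw [this]
        exact pow_le_pow_left₀ (by positivity) hsmall.le 2
      have hq0 : 0 < q := by positivity
      have hq2 : q ≤ 1 / 2 := by nlinarith
      have hqlow : p * γ ^ 4 ≤ q := mul_le_mul_of_nonneg_left hγa hp.le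
      have hg32 : g ≤ 1 / 32 := by
        by_contra hcon
        push Not at hcon
        have h17 : (γ ^ 2) ^ 17 ≤ a ^ 17 := pow_le_pow_left₀ (by positivity) hsmall.le 17
        have : γ ^ 34 = (γ ^ 2) ^ 17 := by ring
        have h34 : 0 < γ ^ 34 := by positivity
        have h35 : 1 / 32 * γ ^ 34 < g * a ^ 17 := by
          calc 1 / 32 * γ ^ 34 < g * γ ^ 34 := mul_lt_mul_of_pos_right hcon h34
            _ ≤ g * a ^ 17 := by
                rw [this]; exact mul_le_mul_of_nonneg_left h17 hg0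
        rw [hg1] at hg
        linarith
      obtain ⟨𝒯', E'', H'', hst'⟩ := hst.step hbite hcard hνpos hE hp hp2 ha ha1 hg0 hg32 hb0
      rw [← hq] at hst'
      have hνq : 4 * ν / q ≤ g1 * q := by
        rw [div_le_iff₀ hq0]
        have h1 : (p * γ ^ 4) ^ 2 ≤ q ^ 2 := pow_le_pow_left₀ (by positivity) hqlow 2
        have h2 : 4 * ν = g1 * (p * γ ^ 4) ^ 2 / 8 := by rw [hν]; ring
        rw [h2]
        nlinarith
      have hν3 : 3 * ν ≤ 7 / 16 * q * a := by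
        have h1 : (p * γ ^ 4) * γ ^ 2 ≤ q * a := mul_le_mul hqlow hsmall.le (by positivity) hq0.le
        have h2 : ν ≤ (p * γ ^ 4) * γ ^ 2 / 32 := by
          have e1 : ν = (g1 * p * γ ^ 2) * ((p * γ ^ 4) * γ ^ 2) / 32 := by rw [hν]; ring
          have e2 : g1 * p * γ ^ 2 ≤ 1 := by
            have : γ ^ 2 ≤ 1 := pow_le_one₀ hγ.le hγ1
            have h3 : g1 * p ≤ 1 := by nlinarith
            nlinarith [mul_pos hg1pos hp]
          have e3 : 0 < (p * γ ^ 4) * γ ^ 2 := by positivity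
          rw [e1]
          nlinarith
        nlinarith [mul_pos hq0 ha]
      have hνle : ν ≤ 1 := by
        have : q * a ≤ 1 := by nlinarith
        nlinarith
      have hb1 : b ≤ 1 := by nlinarith
      refine ⟨a * (1 - q), g * (1 + 6 * q) + 4 * ν / q, (1 - 31 / 32 * q) * b + ν, 𝒯', E'', H'',
        hst', by nlinarith, by nlinarith, by positivity, ?_, ?_, ?_, Or.inr ?_⟩
      · -- g bound
        have h1 : (a * (1 - q)) ^ 17 = a ^ 17 * (1 - q) ^ 17 := by ring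
        have h2 := real_pow hq0.le hq2
        have h3 : (1 - q) ^ 17 ≤ 1 := pow_le_one₀ (by linarith) (by linarith)
        have h3' : 0 ≤ (1 - q) ^ 17 := pow_nonneg (by linarith) _
        have h4 : a ^ 17 ≤ 1 := pow_le_one₀ ha.le ha1
        have h4' : 0 ≤ a ^ 17 := by positivity
        have h5 : (a ^ 17 * (1 - q) ^ 17) ≤ 1 := by nlinarith
        have h6 : 0 ≤ 4 * ν / q := by positivity
        rw [h1]
        calc (g * (1 + 6 * q) + 4 * ν / q) * (a ^ 17 * (1 - q) ^ 17)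
            = (g * a ^ 17) * ((1 + 6 * q) * (1 - q) ^ 17) +
              (4 * ν / q) * (a ^ 17 * (1 - q) ^ 17) := by ring
          _ ≤ g1 * (1 - q) + (4 * ν / q) * 1 := by
              refine add_le_add ?_ (mul_le_mul_of_nonneg_left h5 h6)
              exact mul_le_mul hg h2 (by positivity) hg1pos.le
          _ ≤ g1 := by nlinarith
      · have : 0 ≤ 1 - 31 / 32 * q := by linarith
        positivity
      · -- b bound
        have h0 : 0 ≤ 1 - 31 / 32 * q := by linarith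
        have h1 : ((1 - 31 / 32 * q) * b + ν) ^ 2 =
            (1 - 31 / 32 * q) ^ 2 * b ^ 2 + 2 * ((1 - 31 / 32 * q) * b) * ν + ν ^ 2 := by ring
        have h2 : (1 - 31 / 32 * q) * b ≤ 1 := by nlinarith
        have h3 : 2 * ((1 - 31 / 32 * q) * b) * ν + ν ^ 2 ≤ 3 * ν := by nlinarith
        have h4 : (1 - 31 / 32 * q) ^ 2 * b ^ 2 ≤ (1 - 31 / 32 * q) ^ 2 * a :=
          mul_le_mul_of_nonneg_left hb (sq_nonneg _)
        have h5 : (1 - 31 / 32 * q) ^ 2 ≤ 1 - q - 7 / 16 * q := by nlinarith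
        have h6 : (1 - 31 / 32 * q) ^ 2 * a ≤ (1 - q - 7 / 16 * q) * a :=
          mul_le_mul_of_nonneg_right h5 ha.le
        rw [h1]
        nlinarith
      · -- geometric decay
        rw [pow_succ]
        exact mul_le_mul hor' (by linarith) (by linarith) (pow_nonneg (by
          have : p * γ ^ 4 ≤ 1 / 2 := hqlow.trans hq2
          linarith) _)
  -- conclusion
  have hr0 : 0 ≤ 1 - p * γ ^ 4 := by
    have : γ ^ 4 ≤ 1 := pow_le_one₀ hγ.le hγ1
    nlinarith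
  have hr1 : 1 - p * γ ^ 4 < 1 := by
    have : 0 < p * γ ^ 4 := by positivity
    linarith
  obtain ⟨J, hJ⟩ := exists_pow_lt_of_lt_one (show 0 < γ ^ 2 by positivity) hr1
  obtain ⟨a, g, b, 𝒯, E', H', hst, ha, ha1, hg0, hg, hb0, hb, hor⟩ := key J
  have haγ : a ≤ γ ^ 2 := by
    rcases hor with h | h
    · exact h
    · exact h.trans hJ.le
  have hbγ : b ≤ γ := by
    by_contra hcon
    push Not at hcon
    nlinarith
  refine ⟨𝒯, hst.pack, fun v => ?_⟩
  rw [← hst.eq]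
  exact (hst.degb v).trans (mul_le_mul_of_nonneg_right hbγ hn0.le)

end NW
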